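import Pool.Agent.LE.StmtsQX
import Pool.Agent.Helper54_LIR.CPEb

/-!
# Squad LQX (MP_1906c1_mp), row EIG: all local quasimodes are extended
-/

set_option autoImplicit false

open MeasureTheory ProbabilityTheory Function Filter

open scoped ENNReal BigOperators Topology NNReal ComplexOrder Matrix

noncomputable section

namespace Pool.Agent.LE.QX.H94

open Pool.Agent.Anderson hiding box mem_box card_box
open Pool.Agent.Loc Pool.Agent.Mob Pool.Agent.Helper54.Bal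
  Pool.Agent.Helper96.EXP Pool.Agent.BED
open Pool.Agent.LE.MN Pool.Agent.LE.CL Pool.Agent.LE.IR Pool.Agent.LE.QD Pool.Agent.LE.QF

/-! ### Numbers -/

theorem num1 {s t : ℝ} (hs : 0 < s) (hs1 : s ≤ 1 / 4) (ht : s ^ (-4 : ℝ) ≤ t) :
    1 ≤ t * s ^ 4 ∧ 256 ≤ t ∧ 4 / t ≤ s ^ 3 := by
  have e1 : s ^ (-4 : ℝ) = (s ^ 4)⁻¹ := by
    rw [Real.rpow_neg hs.le]
    congr 1
    exact_mod_cast Real.rpow_natCast s 4
  rw [e1] at ht
  have h4 : 0 < s ^ 4 := by positivity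
  have h1 : 1 ≤ t * s ^ 4 := by
    have := mul_le_mul_of_nonneg_right ht h4.le
    rwa [inv_mul_cancel₀ h4.ne'] at this
  have h5 : s ^ 4 ≤ 1 / 256 := by
    have := pow_le_pow_left₀ hs.le hs1 4
    norm_num at this ⊢
    exact this
  have ht0 : 0 < t := by
    by_contra h
    push Not at h
    nlinarith
  have h2 : 256 ≤ t := by nlinarith
  refine ⟨h1, h2, ?_⟩
  rw [div_le_iff₀ ht0]
  have h6 : 4 * s ≤ s * (s ^ 3 * t) := by
    have : s * (s ^ 3 * t) = t * s ^ 4 := by ring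
    rw [this]
    linarith
  nlinarith

theorem num2 {d : ℕ} (hd : 3 ≤ d) {s t ε : ℝ} (hs : 0 < s) (hs1 : s ≤ 1) (hε : ε ≤ 1)
    (ht : 256 ≤ t) : t ≤ (s ^ (ε - 1) / Real.sqrt (4 / t)) ^ d := by
  have ht0 : 0 < t := by linarith
  obtain ⟨y, hy⟩ : ∃ y, y = Real.sqrt (t / 4) := ⟨_, rfl⟩
  have hy2 : y ^ 2 = t / 4 := by
    rw [hy]
    exact Real.sq_sqrt (by positivity)
  have hy0 : 0 ≤ y := hy ▸ Real.sqrt_nonneg _
  have hy8 : 8 ≤ y := by
    by_contra h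
    push Not at h
    nlinarith
  have e1 : (Real.sqrt (4 / t))⁻¹ = y := by
    rw [hy, ← Real.sqrt_inv]
    congr 1
    rw [inv_div]
  have h1 : 1 ≤ s ^ (ε - 1) := Real.one_le_rpow_of_pos_of_le_one_of_nonpos hs hs1 (by linarith)
  have h2 : y ≤ s ^ (ε - 1) / Real.sqrt (4 / t) := by
    rw [div_eq_mul_inv, e1]
    nlinarith
  have h3 : y ^ d ≤ (s ^ (ε - 1) / Real.sqrt (4 / t)) ^ d := pow_le_pow_left₀ hy0 h2 d
  refine le_trans ?_ h3
  have h4 : y ^ 3 ≤ y ^ d := pow_le_pow_right₀ (by linarith) hd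
  refine le_trans ?_ h4
  have e2 : y ^ 3 = y * (t / 4) := by rw [← hy2]; ring
  rw [e2]
  nlinarith

theorem num3 {d : ℕ} (hd : 3 ≤ d) {s t θ : ℝ} (hs : 0 < s)
    (hθ : s ^ θ ≤ 1 / (48 * d)) (ht0 : 1 ≤ t) (ht : t ≤ Real.exp (s ^ (-θ))) :
    2 * (2 * d * t + 1) * Real.exp (-(s ^ (-(2 * (4 * θ))))) ≤ Real.exp (-(s ^ (-θ))) := by
  have hd0 : (3 : ℝ) ≤ d := by exact_mod_cast hd
  obtain ⟨X, hX⟩ : ∃ X, X = s ^ (-θ) := ⟨_, rfl⟩
  have hX0 : 48 * (d : ℝ) ≤ X := by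
    rw [hX, Real.rpow_neg hs.le]
    rw [le_inv_comm₀ (by positivity) (Real.rpow_pos_of_pos hs _)]
    rwa [one_div] at hθ
  have e1 : s ^ (-(2 * (4 * θ))) = X ^ 8 := by
    rw [hX, ← Real.rpow_natCast, ← Real.rpow_mul hs.le]
    congr 1
    push_cast
    ring
  rw [e1]
  rw [← hX] at ht ⊢
  have h1 : 6 * (d : ℝ) ≤ Real.exp X := by
    have := Real.add_one_le_exp X
    linarith
  have h2 : 2 * (2 * (d : ℝ) * t + 1) ≤ 6 * d * t := by nlinarith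
  have h3 : 3 * X ≤ X ^ 8 := by
    have h4 : 3 ≤ X := by linarith
    have h5 : X * 3 ≤ X * X ^ 7 := by
      refine mul_le_mul_of_nonneg_left ?_ (by linarith)
      calc (3 : ℝ) ≤ X := h4
        _ = X ^ 1 := (pow_one X).symm
        _ ≤ X ^ 7 := pow_le_pow_right₀ (by linarith) (by norm_num)
    calc 3 * X = X * 3 := by ring
      _ ≤ X * X ^ 7 := h5
      _ = X ^ 8 := by ring
  calc 2 * (2 * d * t + 1) * Real.exp (-X ^ 8) ≤ (6 * d * t) * Real.exp (-X ^ 8) :=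
        mul_le_mul_of_nonneg_right h2 (Real.exp_pos _).le
    _ ≤ (Real.exp X * Real.exp X) * Real.exp (-X ^ 8) := by
        refine mul_le_mul_of_nonneg_right ?_ (Real.exp_pos _).le
        exact mul_le_mul h1 ht (by linarith) (Real.exp_pos _).le
    _ = Real.exp (X + X + -X ^ 8) := by rw [Real.exp_add, Real.exp_add]
    _ ≤ Real.exp (-X) := Real.exp_le_exp.2 (by linarith)

theorem num4 {s t η B θ n : ℝ} (hs : 0 < s) (ht : 0 < t) (hη : η = 4 / t) (hn : n ≤ t)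
    (hB : B = s ^ (4 * θ) * n / η) (h8 : s ^ θ ≤ 1 / 8) : 4 * η * Real.sqrt B ≤ s ^ θ := by
  have hη0 : 0 < η := by rw [hη]; positivity
  have hp : 0 < s ^ θ := Real.rpow_pos_of_pos hs _
  have e1 : s ^ (4 * θ) = (s ^ θ) ^ 4 := by
    rw [← Real.rpow_natCast, ← Real.rpow_mul hs.le]
    congr 1
    push_cast
    ring
  have h1 : Real.sqrt B ≤ s ^ θ / (4 * η) := by
    rw [Real.sqrt_le_iff]
    refine ⟨by positivity, ?_⟩
    rw [hB, e1, div_pow, div_le_div_iff₀ hη0 (by positivity)]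
    have h2 : η * n ≤ 4 := by
      rw [hη, div_mul_eq_mul_div, div_le_iff₀ ht]
      linarith
    have h3 : (s ^ θ) ^ 2 ≤ 1 / 64 := by
      have := pow_le_pow_left₀ hp.le h8 2
      norm_num at this ⊢
      exact this
    have h4 : (s ^ θ) ^ 4 * n * (4 * η) ^ 2 = ((s ^ θ) ^ 2 * (η * n) * 16) * ((s ^ θ) ^ 2 * η) := by
      ring
    rw [h4]
    have h5 : (s ^ θ) ^ 2 * (η * n) * 16 ≤ 1 := by
      have h6 : (s ^ θ) ^ 2 * (η * n) ≤ (s ^ θ) ^ 2 * 4 :=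
        mul_le_mul_of_nonneg_left h2 (by positivity)
      linarith
    have h7 : 0 ≤ (s ^ θ) ^ 2 * η := by positivity
    nlinarith
  have h2 : 4 * η * Real.sqrt B ≤ 4 * η * (s ^ θ / (4 * η)) :=
    mul_le_mul_of_nonneg_left h1 (by positivity)
  refine h2.trans (le_of_eq ?_)
  field_simp

/-! ### The grid -/

theorem grid {s₀ t E b : ℝ} (ht : 0 < t) (h1 : s₀ ≤ |E|) (h2 : |E| ≤ b) (hs : 0 ≤ s₀) :
    ∃ j ∈ Finset.range (⌊b * t⌋₊ + 1), s₀ + j / t ≤ b ∧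
      (|E - (s₀ + j / t)| ≤ 1 / t ∨ |E - (-(s₀ + j / t))| ≤ 1 / t) := by
  refine ⟨⌊(|E| - s₀) * t⌋₊, ?_, ?_, ?_⟩
  · rw [Finset.mem_range]
    refine Nat.lt_succ_of_le (Nat.floor_le_floor ?_)
    refine mul_le_mul_of_nonneg_right ?_ ht.le
    linarith
  · have h3 := Nat.floor_le (mul_nonneg (sub_nonneg.2 h1) ht.le)
    have h4 : (⌊(|E| - s₀) * t⌋₊ : ℝ) / t ≤ |E| - s₀ := by
      rw [div_le_iff₀ ht]
      exact h3
    linarith
  · have h3 := Nat.floor_le (mul_nonneg (sub_nonneg.2 h1) ht.le)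
    have h5 := Nat.lt_floor_add_one ((|E| - s₀) * t)
    have h4 : (⌊(|E| - s₀) * t⌋₊ : ℝ) / t ≤ |E| - s₀ := by
      rw [div_le_iff₀ ht]
      exact h3
    have h6 : |E| - s₀ ≤ (⌊(|E| - s₀) * t⌋₊ : ℝ) / t + 1 / t := by
      rw [← add_div, le_div_iff₀ ht]
      exact h5.le
    rcases abs_cases E with ⟨h7, h8⟩ | ⟨h7, h8⟩
    · left
      rw [abs_le]
      rw [h7] at h4 h6 ⊢
      constructor <;> linarith [one_div_pos.2 ht]
    · right
      rw [abs_le]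
      rw [h7] at h4 h6 ⊢
      constructor <;> linarith [one_div_pos.2 ht]

/-- the good event on the torus -/
def Gd (d M : ℕ) [NeZero M] (c s ε θ E η : ℝ) (V : Tor d M → ℝ) : Prop :=
  (∀ x, c ≤ (rs V ⟨E, η⟩ x x).im) ∧
    ∀ C' : Finset (Tor d M), (C'.card : ℝ) ≤ (s ^ (ε - 1) / Real.sqrt η) ^ d →
      mss V ⟨E, η⟩ C' ≤ s ^ θ * C'.card / η

theorem union_le {d M : ℕ} [NeZero M] {σ : ℝ} (hσ : σ ≠ 0) {v : ℝ≥0} (hv : (v : ℝ) = σ ^ 2)
    (N : ℕ) (p : ℕ → Prop) (P : ℕ → (Tor d M → ℝ) → Prop) {q : ℝ} (hq : 0 ≤ q)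
    (hP : ∀ j, p j → gau d M v {V | ¬ P j V} ≤ ENNReal.ofReal q) :
    PP d (gl σ) (⋃ j ∈ Finset.range N, {V | p j ∧ ¬ P j (fun x : Tor d M => V (0 + rep x))}) ≤
      ENNReal.ofReal (N * q) := by
  refine (measure_biUnion_finset_le _ _).trans ?_
  have h1 : ∀ j ∈ Finset.range N,
      PP d (gl σ) {V | p j ∧ ¬ P j (fun x : Tor d M => V (0 + rep x))} ≤ ENNReal.ofReal q := by
    intro j _
    by_cases hp : p j
    · refine (measure_mono ?_).trans (Pool.Agent.LE.IR.H54.law_le hσ hv 0 (P j) (hP j hp))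
      intro V hV
      exact hV.2
    · have h2 : {V : Site d → ℝ | p j ∧ ¬ P j (fun x : Tor d M => V (0 + rep x))} = ∅ := by
        ext V
        simp [hp]
      rw [h2, measure_empty]
      exact zero_le
  refine (Finset.sum_le_sum h1).trans (le_of_eq ?_)
  rw [Finset.sum_const, Finset.card_range, nsmul_eq_mul, ← ENNReal.ofReal_natCast,
    ← ENNReal.ofReal_mul (Nat.cast_nonneg _)]

/-- row EIG -/
theorem eig (tof : TofStmt) (egb : EgbStmt) : EigStmt := by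
  intro d a ε hd ha hε hε1
  obtain ⟨θ', c', hθ', -, hc', hc'1, htof⟩ := tof d a ε hd ha hε hε1
  obtain ⟨θ, hθ⟩ : ∃ θ, θ = θ' / 4 := ⟨_, rfl⟩
  have hθ0 : 0 < θ := by rw [hθ]; positivity
  have hθ4 : θ' = 4 * θ := by rw [hθ]; ring
  rw [hθ4] at htof
  have hd0 : (3 : ℝ) ≤ d := by exact_mod_cast hd
  obtain ⟨c, hc⟩ : ∃ c : ℝ, c = min c' (min (1 / (16 * (4 * d + 13))) ((1 / (48 * d)) ^ (1 / θ))) :=
    ⟨_, rfl⟩
  have hc0 : 0 < c := by
    rw [hc]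
    exact lt_min hc' (lt_min (by positivity) (Real.rpow_pos_of_pos (by positivity) _))
  have hc1 : c ≤ c' := hc ▸ min_le_left _ _
  have hc2 : c ≤ 1 / (16 * (4 * d + 13)) := hc ▸ (min_le_right _ _).trans (min_le_left _ _)
  have hc3 : c ≤ (1 / (48 * d)) ^ (1 / θ) := hc ▸ (min_le_right _ _).trans (min_le_right _ _)
  refine ⟨θ, c, hθ0, hc0, hc1.trans hc'1, ?_⟩
  intro σ t hσ hσc ht1 ht2
  obtain ⟨s, hs⟩ : ∃ s, s = |σ| := ⟨_, rfl⟩
  have hs0 : 0 < s := hs ▸ abs_pos.2 hσ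
  rw [← hs] at hσc ht1 ht2 ⊢
  have hs4 : s ≤ 1 / 4 := hσc.trans (hc1.trans hc'1)
  have hs1 : s ≤ 1 := by linarith
  obtain ⟨n1, ht256, hη3⟩ := num1 hs0 hs4 ht1
  have ht0 : 0 < t := by linarith
  have hsθ : s ^ θ ≤ 1 / (48 * d) := by
    have h1 : s ^ θ ≤ ((1 / (48 * d)) ^ (1 / θ)) ^ θ :=
      Real.rpow_le_rpow hs0.le (hσc.trans hc3) hθ0.le
    rwa [← Real.rpow_mul (by positivity), one_div_mul_cancel hθ0.ne', Real.rpow_one] at h1
  have hsθ8 : s ^ θ ≤ 1 / 8 := by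
    refine hsθ.trans ?_
    rw [div_le_div_iff₀ (by positivity) (by norm_num)]
    linarith
  obtain ⟨η, hη⟩ : ∃ η, η = 4 / t := ⟨_, rfl⟩
  have hη0 : 0 < η := by rw [hη]; positivity
  have hη1 : η ≤ 1 := by
    rw [hη, div_le_iff₀ ht0]
    linarith
  rw [← hη] at hη3
  -- the torus
  obtain ⟨M, hM⟩ : ∃ M : ℕ, M = ⌈1 / (s ^ 4 * η ^ 2)⌉₊ := ⟨_, rfl⟩
  have hMpos : 0 < 1 / (s ^ 4 * η ^ 2) := by positivity
  have hM1 : 1 / (s ^ 4 * η ^ 2) ≤ M := hM ▸ Nat.le_ceil _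
  have hM2 : (M : ℝ) ≤ 1 / (s ^ 4 * η ^ 2) + 1 := hM ▸ (Nat.ceil_lt_add_one hMpos.le).le
  have hM0 : (0 : ℝ) < M := lt_of_lt_of_le hMpos hM1
  haveI : NeZero M := ⟨by
    intro h
    rw [h, Nat.cast_zero] at hM0
    exact lt_irrefl _ hM0⟩
  have hMa : 1 ≤ s ^ 4 * η ^ 2 * M := by
    rw [div_le_iff₀ (by positivity)] at hM1
    linarith
  have hMb : s ^ 6 * η ^ 2 * M ≤ 1 := by
    have h1 : s ^ 6 * η ^ 2 * M ≤ s ^ 6 * η ^ 2 * (1 / (s ^ 4 * η ^ 2) + 1) :=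
      mul_le_mul_of_nonneg_left hM2 (by positivity)
    have h2 : s ^ 6 * η ^ 2 * (1 / (s ^ 4 * η ^ 2) + 1) = s ^ 2 + s ^ 6 * η ^ 2 := by
      field_simp
    rw [h2] at h1
    have h3 : s ^ 2 ≤ (1 / 4) ^ 2 := pow_le_pow_left₀ hs0.le hs4 2
    have h4 : s ^ 6 ≤ (1 / 4) ^ 6 := pow_le_pow_left₀ hs0.le hs4 6
    have h5 : η ^ 2 ≤ 1 ^ 2 := pow_le_pow_left₀ hη0.le hη1 2
    have h6 : s ^ 6 * η ^ 2 ≤ (1 / 4) ^ 6 * 1 ^ 2 :=
      mul_le_mul h4 h5 (by positivity) (by positivity)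
    norm_num at h3 h6
    linarith
  -- the cube
  obtain ⟨L, hL⟩ : ∃ L : ℕ, L = ⌈d * t⌉₊ := ⟨_, rfl⟩
  have hL1 : (d : ℝ) * t ≤ L := hL ▸ Nat.le_ceil _
  have hL2 : (L : ℝ) ≤ d * t + 1 := hL ▸ (Nat.ceil_lt_add_one (by positivity)).le
  have hLt : t ≤ L := by nlinarith
  have hLM : 4 * L + 9 ≤ M := by
    have h1 : ((4 * L + 9 : ℕ) : ℝ) ≤ M := by
      refine le_trans ?_ hM1
      push_cast
      rw [le_div_iff₀ (by positivity), hη]
      have h2 : s * (16 * (4 * d + 13)) ≤ 1 := by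
        have := hσc.trans hc2
        rwa [le_div_iff₀ (by positivity)] at this
      have h3 : (4 * (L : ℝ) + 9) ≤ (4 * d + 13) * t := by nlinarith
      have h4 : s ^ 4 ≤ s := by
        calc s ^ 4 ≤ s ^ 1 := pow_le_pow_of_le_one hs0.le hs1 (by norm_num)
          _ = s := pow_one s
      calc (4 * (L : ℝ) + 9) * (s ^ 4 * (4 / t) ^ 2) ≤ ((4 * d + 13) * t) * (s * (4 / t) ^ 2) := by
            gcongr
        _ = s * (16 * (4 * d + 13)) / t := by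
            field_simp
            ring
        _ ≤ 1 / t := by gcongr
        _ ≤ 1 := by
            rw [div_le_iff₀ ht0]
            linarith
    exact_mod_cast h1
  have hLη : 4 * (d : ℝ) ≤ η * L := by
    have h1 : η * (d * t) ≤ η * L := mul_le_mul_of_nonneg_left hL1 hη0.le
    have h2 : η * (d * t) = 4 * d := by
      rw [hη]
      field_simp
    linarith
  obtain ⟨n, hn⟩ : ∃ n : ℕ, n = ⌊t⌋₊ := ⟨_, rfl⟩
  have hnt : (n : ℝ) ≤ t := hn ▸ Nat.floor_le ht0.le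
  have hcard := num2 hd hs0 hs1 hε1 ht256
  rw [← hη] at hcard
  obtain ⟨v, hv⟩ : ∃ v : ℝ≥0, (v : ℝ) = σ ^ 2 := ⟨⟨σ ^ 2, sq_nonneg σ⟩, rfl⟩
  have hηe : Real.exp (-(s ^ (-(4 * θ)))) ≤ η := by
    have h1 : s ^ (-θ) ≤ s ^ (-(4 * θ)) :=
      Real.rpow_le_rpow_of_exponent_ge hs0 hs1 (by linarith)
    have h2 : Real.exp (-(s ^ (-(4 * θ)))) ≤ Real.exp (-(s ^ (-θ))) :=
      Real.exp_le_exp.2 (by linarith)
    refine h2.trans ?_
    rw [Real.exp_neg]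
    have h3 : (Real.exp (s ^ (-θ)))⁻¹ ≤ t⁻¹ := by
      rw [inv_le_inv₀ (Real.exp_pos _) ht0]
      exact ht2
    refine h3.trans ?_
    rw [hη, inv_eq_one_div]
    gcongr
    norm_num
  obtain ⟨s₀, hs₀⟩ : ∃ s₀, s₀ = s ^ (2 - ε) := ⟨_, rfl⟩
  have hs₀0 : 0 < s₀ := hs₀ ▸ Real.rpow_pos_of_pos hs0 _
  obtain ⟨J, hJ⟩ : ∃ J : ℕ, J = ⌊(2 * d - a) * t⌋₊ + 1 := ⟨_, rfl⟩
  obtain ⟨q, hq⟩ : ∃ q, q = Real.exp (-(s ^ (-(2 * (4 * θ))))) := ⟨_, rfl⟩
  have hq0 : 0 < q := hq ▸ Real.exp_pos _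
  have hgau : ∀ E₀ : ℝ, s₀ ≤ |E₀| → |E₀| ≤ 2 * d - a →
      gau d M v {V | ¬ Gd d M c' s ε (4 * θ) E₀ η V} ≤ ENNReal.ofReal q := by
    intro E₀ h1 h2
    have h3 := htof M v σ E₀ η hv hσ (by rw [← hs]; exact hσc.trans hc1)
      (by rw [← hs, ← hs₀]; exact h1) h2 (by rw [← hs]; exact hηe) (by rw [← hs]; exact hη3)
      (by rw [← hs]; exact hMa) (by rw [← hs]; exact hMb)
    rw [← hs, ← hq] at h3
    exact h3
  have hp : PP d (gl σ) (⋃ j ∈ Finset.range J, {V | s₀ + (j : ℝ) / t ≤ 2 * d - a ∧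
      ¬ Gd d M c' s ε (4 * θ) (s₀ + (j : ℝ) / t) η (fun x : Tor d M => V (0 + rep x))}) ≤
        ENNReal.ofReal (J * q) := by
    refine union_le hσ hv J (fun j => s₀ + (j : ℝ) / t ≤ 2 * d - a)
      (fun j => Gd d M c' s ε (4 * θ) (s₀ + (j : ℝ) / t) η) hq0.le ?_
    intro j hj
    have h1 : 0 ≤ (j : ℝ) / t := by positivity
    refine hgau _ ?_ ?_
    · rw [abs_of_nonneg (by linarith)]
      linarith
    · rw [abs_of_nonneg (by linarith)]
      exact hj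
  have hm : PP d (gl σ) (⋃ j ∈ Finset.range J, {V | s₀ + (j : ℝ) / t ≤ 2 * d - a ∧
      ¬ Gd d M c' s ε (4 * θ) (-(s₀ + (j : ℝ) / t)) η (fun x : Tor d M => V (0 + rep x))}) ≤
        ENNReal.ofReal (J * q) := by
    refine union_le hσ hv J (fun j => s₀ + (j : ℝ) / t ≤ 2 * d - a)
      (fun j => Gd d M c' s ε (4 * θ) (-(s₀ + (j : ℝ) / t)) η) hq0.le ?_
    intro j hj
    have h1 : 0 ≤ (j : ℝ) / t := by positivity
    refine hgau _ ?_ ?_
    · rw [abs_neg, abs_of_nonneg (by linarith)]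
      linarith
    · rw [abs_neg, abs_of_nonneg (by linarith)]
      exact hj
  -- one energy
  have key : ∀ (V : Site d → ℝ) (E₀ : ℝ),
      Gd d M c' s ε (4 * θ) E₀ η (fun x : Tor d M => V (0 + rep x)) →
      ∀ (R : ℕ) (E S : ℝ) (u : Site d → ℂ) (C : Finset (Site d)), |E - E₀| ≤ 1 / t →
        3 * d * t ≤ R →
        ∑ x ∈ box 0 (R + 1), ‖u x‖ ^ 2 ≤ S →
        ∑ x ∈ box 0 R, ‖nc u x + ((V x - E : ℝ) : ℂ) * u x‖ ^ 2 ≤ S / t ^ 2 →
        (∀ x ∈ C, ∀ i, |(x i : ℝ)| ≤ t) → (C.card : ℝ) ≤ t → ∑ x ∈ C, ‖u x‖ ^ 2 ≤ s ^ θ * S := by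
    intro V E₀ hG R E S u C hE hR hS1 hS2 hC1 hC2
    obtain ⟨B, hB⟩ : ∃ B, B = s ^ (4 * θ) * n / η := ⟨_, rfl⟩
    have hS0 : 0 ≤ S := le_trans (Finset.sum_nonneg fun x _ => by positivity) hS1
    have hLR : 2 * L ≤ R := by
      have h1 : ((2 * L : ℕ) : ℝ) ≤ R := by
        push_cast
        nlinarith
      exact_mod_cast h1
    have hbox : ∀ m k : ℕ, m ≤ k → box (0 : Site d) m ⊆ box 0 k := by
      intro m k hmk x hx
      rw [mem_box] at hx ⊢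
      exact hx.trans hmk
    have h1 := egb d (by omega) M L n V E E₀ η B S u C hη0
      (by
        have : (1 : ℝ) ≤ L := by linarith
        exact_mod_cast this) hLM hLη
      (by
        refine hE.trans (le_of_eq ?_)
        rw [hη]
        field_simp)
      (by
        intro C' hC'
        have h2 : (C'.card : ℝ) ≤ n := by exact_mod_cast hC'
        refine (hG.2 C' (h2.trans (hnt.trans hcard))).trans ?_
        rw [hB]
        gcongr)
      (le_trans (Finset.sum_le_sum_of_subset_of_nonneg (hbox _ _ (by omega))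
        fun x _ _ => by positivity) hS1)
      (by
        refine (Finset.sum_le_sum_of_subset_of_nonneg (hbox _ _ hLR)
          fun x _ _ => by positivity).trans (hS2.trans (le_of_eq ?_))
        rw [hη]
        field_simp)
      (by
        intro x hx
        rw [mem_box, sd_le_iff]
        intro i
        have h2 := hC1 x hx i
        have h3 : ((|x i| : ℤ) : ℝ) ≤ L := by
          rw [Int.cast_abs]
          exact h2.trans hLt
        rw [Pi.zero_apply, zero_sub, abs_neg]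
        exact_mod_cast h3)
      (by
        rw [hn]
        exact Nat.le_floor hC2)
    refine h1.trans (mul_le_mul_of_nonneg_right ?_ hS0)
    exact num4 hs0 ht0 hη hnt hB hsθ8
  -- the union
  have hsub : {V : Site d → ℝ | ¬ ∀ (R : ℕ) (E S : ℝ) (u : Site d → ℂ) (C : Finset (Site d)),
        3 * d * t ≤ R → s ^ (2 - ε) ≤ |E| → |E| ≤ 2 * d - a →
        ∑ x ∈ box 0 (R + 1), ‖u x‖ ^ 2 ≤ S →
        ∑ x ∈ box 0 R, ‖nc u x + ((V x - E : ℝ) : ℂ) * u x‖ ^ 2 ≤ S / t ^ 2 →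
        (∀ x ∈ C, ∀ i, |(x i : ℝ)| ≤ t) → (C.card : ℝ) ≤ t →
          ∑ x ∈ C, ‖u x‖ ^ 2 ≤ s ^ θ * S} ⊆
      (⋃ j ∈ Finset.range J, {V | s₀ + (j : ℝ) / t ≤ 2 * d - a ∧
        ¬ Gd d M c' s ε (4 * θ) (s₀ + (j : ℝ) / t) η (fun x : Tor d M => V (0 + rep x))}) ∪
      (⋃ j ∈ Finset.range J, {V | s₀ + (j : ℝ) / t ≤ 2 * d - a ∧
        ¬ Gd d M c' s ε (4 * θ) (-(s₀ + (j : ℝ) / t)) η
          (fun x : Tor d M => V (0 + rep x))}) := by
    intro V hV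
    by_contra hcon
    apply hV
    intro R E S u C hR hE1 hE2 hS1 hS2 hC1 hC2
    simp only [Set.mem_union, Set.mem_iUnion, Set.mem_ofPred_eq, not_or, not_exists, not_and,
      not_not] at hcon
    rw [← hs₀] at hE1
    obtain ⟨j, hj, hj1, hj2⟩ := grid ht0 hE1 hE2 hs₀0.le
    rw [← hJ] at hj
    rcases hj2 with hj2 | hj2
    · exact key V _ (hcon.1 j hj hj1) R E S u C hj2 hR hS1 hS2 hC1 hC2
    · exact key V _ (hcon.2 j hj hj1) R E S u C hj2 hR hS1 hS2 hC1 hC2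
  refine (measure_mono hsub).trans ((measure_union_le _ _).trans ?_)
  refine (add_le_add hp hm).trans ?_
  rw [← ENNReal.ofReal_add (by positivity) (by positivity)]
  refine ENNReal.ofReal_le_ofReal ?_
  have hJ1 : (J : ℝ) ≤ 2 * d * t + 1 := by
    rw [hJ]
    push_cast
    have h1 : (⌊(2 * d - a) * t⌋₊ : ℝ) ≤ 2 * d * t := by
      rcases le_or_gt 0 ((2 * d - a) * t) with h2 | h2
      · refine (Nat.floor_le h2).trans ?_
        nlinarith
      · rw [Nat.floor_of_nonpos h2.le]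
        push_cast
        positivity
    linarith
  have h1 := num3 hd hs0 hsθ (by linarith : (1 : ℝ) ≤ t) ht2
  rw [← hq] at h1
  refine le_trans ?_ h1
  nlinarith

end Pool.Agent.LE.QX.H94
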